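import Pool.Agent.H104.MZ.Main
import Pool.Agent.H104.MZ.Fin
import Pool.Agent.H104.MZ.Poly
import Pool.Agent.H104.MZ.Bad
import Pool.Agent.H104.MZ.Fou
import Pool.Agent.Q79.MZ.EXPD
import Pool.Agent.Q211.MZ.MOM2
import Pool.Agent.Q187.MZ.NRM
import Pool.Agent.Q151.MZ.STR
import Pool.Agent.Q121.MZ.NUM
import Pool.Agent.Q224.MZ.GCD
import Pool.Agent.Q224.MZ.POW
import Pool.Agent.Q150.MZ.PIG
import Pool.Agent.Q150.MZ.EXT
import Pool.Agent.Q162.MZ.FOU1
import Pool.Agent.Q95.MZ.MOM1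
import Pool.Agent.Q95.MZ.PAR
import Pool.Agent.Q220.MZ.ANN
import Pool.Agent.Q220.MZ.CNT

/-!
# MP_efea25_an, Q1: Littlewood polynomials whose zero at `1` has multiplicity `> c log n`

Q1 has the answer NO.  For every `c` there is `Q ≥ 1` such that for all large `s` some Littlewood
polynomial of degree `n = Q 2^s - 1` has a zero at `1` of multiplicity `> c log (n + 1) > c log n`.
(The factor `2^s` is natural: if a Littlewood polynomial of degree `n` has a zero of multiplicity `m` at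
`1`, then reduction modulo `2` shows that `n + 1` is divisible by a power of `2` that is larger than `m`.)

The complete paper proof is in `Pool/Agent/H104/MZ/Stm.lean`.  In short: the number of solutions of
`∑ a_j binom(j,k) = 0`, `k < m`, is an average of products `∏_{j<N} cos (π G(j))`, `G` a real polynomial of
degree `< m`, `N = Q 2^s`, `m = C s`.  Either the product is tiny, or `G(j)` is very near an integer
`n_j` for all `j < N` outside a very small exceptional set.  In the second case products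
`L0(T^σ)^M` of very sparse norm of difference operators kill `n`, hence `(T^Q - 1)^E` kills it, and so on
every class modulo `Q` the sequence `n` is an integer valued polynomial of degree `O(s)`; its sum over
`2^s` consecutive places is even, and the product of the cosines is nonnegative.
-/

set_option autoImplicit false

open Filter Polynomial

namespace Pool.Agent.Results.MP_efea25_an.ManyZerosAtOne

open Pool.Agent.H104.MZ

/-- Littlewood polynomials of degree `n`: all coefficients `a_0, ..., a_n` are `1` or `-1`. -/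
def IsLittlewood (n : ℕ) (p : ℝ[X]) : Prop :=
  p.natDegree = n ∧ ∀ j ≤ n, p.coeff j = 1 ∨ p.coeff j = -1

theorem s_ann : S_ANN :=
  Pool.Agent.Q220.MZ.t_ANN Pool.Agent.Q224.MZ.t_GCD Pool.Agent.Q224.MZ.t_POW
    Pool.Agent.Q79.MZ.t_EXPD Pool.Agent.Q187.MZ.t_NRM
    (Pool.Agent.Q95.MZ.t_LOC Pool.Agent.Q95.MZ.t_MOM1)

theorem s_fou : S_FOU :=
  t_FOU Pool.Agent.Q151.MZ.t_BIN Pool.Agent.Q162.MZ.t_FOU1 Pool.Agent.Q95.MZ.t_SIG t_BADP
    Pool.Agent.Q151.MZ.t_NEAR Pool.Agent.Q220.MZ.t_CNT Pool.Agent.Q220.MZ.t_VOL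

theorem s_main : S_MAIN :=
  main (Pool.Agent.Q150.MZ.t_PIG Pool.Agent.Q211.MZ.t_MOM2) Pool.Agent.Q187.MZ.t_NTR s_ann
    Pool.Agent.Q151.MZ.t_STR t_POLY (Pool.Agent.Q150.MZ.t_EXT Pool.Agent.Q95.MZ.t_MOM1)
    Pool.Agent.Q95.MZ.t_PAR s_fou Pool.Agent.Q121.MZ.t_KK Pool.Agent.Q121.MZ.t_NUM

/-- Q1 is false.  (1) There is no constant `c > 0` such that for every `n ≥ 2` every Littlewood polynomial
of degree `n` has a zero of multiplicity at most `c log n` at `1`.
(2) For every real `c` there is `Q ≥ 1` such that for all sufficiently large `s` some Littlewood polynomial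
of degree `Q * 2 ^ s - 1` has at `1` a zero of multiplicity greater than `c * log (Q * 2 ^ s)`. -/
theorem result :
    (¬ ∃ c : ℝ, 0 < c ∧ ∀ n : ℕ, 2 ≤ n → ∀ p : ℝ[X], IsLittlewood n p →
      (p.rootMultiplicity 1 : ℝ) ≤ c * Real.log n) ∧
    ∀ c : ℝ, ∃ Q : ℕ, 1 ≤ Q ∧ ∀ᶠ s : ℕ in atTop, ∃ p : ℝ[X], IsLittlewood (Q * 2 ^ s - 1) p ∧
      c * Real.log ((Q * 2 ^ s : ℕ) : ℝ) < (p.rootMultiplicity 1 : ℝ) := by
  have key : ∀ c : ℝ, ∃ Q : ℕ, 1 ≤ Q ∧ ∀ᶠ s : ℕ in atTop, ∃ p : ℝ[X],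
      IsLittlewood (Q * 2 ^ s - 1) p ∧
      c * Real.log ((Q * 2 ^ s : ℕ) : ℝ) < (p.rootMultiplicity 1 : ℝ) :=
    fun c => fin Pool.Agent.Q211.MZ.t_MOM2 s_main c
  refine ⟨?_, key⟩
  rintro ⟨c, hc0, hc⟩
  obtain ⟨Q, hQ, hev⟩ := key c
  obtain ⟨s, ⟨p, hp, hlt⟩, hs⟩ := (hev.and (eventually_ge_atTop 2)).exists
  have h4 : 4 ≤ Q * 2 ^ s := by
    have : 2 ^ 2 ≤ 2 ^ s := Nat.pow_le_pow_right (by norm_num) hs
    nlinarith
  have h1 := hc (Q * 2 ^ s - 1) (by omega) p hp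
  have h2 : Real.log ((Q * 2 ^ s - 1 : ℕ) : ℝ) ≤ Real.log ((Q * 2 ^ s : ℕ) : ℝ) := by
    apply Real.log_le_log
    · exact_mod_cast (by omega : 0 < Q * 2 ^ s - 1)
    · exact_mod_cast (by omega : Q * 2 ^ s - 1 ≤ Q * 2 ^ s)
  have h3 : c * Real.log ((Q * 2 ^ s - 1 : ℕ) : ℝ) ≤ c * Real.log ((Q * 2 ^ s : ℕ) : ℝ) :=
    mul_le_mul_of_nonneg_left h2 hc0.le
  linarith

end Pool.Agent.Results.MP_efea25_an.ManyZerosAtOne
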